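import Pool.Agent.R449.MB.Mlc
import Pool.Agent.R240.Res4

/-! # Good parameters of order `s`: exceptional sets for the Hausdorff measures -/

set_option autoImplicit false

namespace Pool.Agent.N228.DQ

open Complex Filter Topology Set Metric MeasureTheory Pool.Agent.H713R2
open N62a1eb23
open Pool.Agent.H712R2 (P fc)
open Pool.Agent.Y736.HD (Ang)
open Pool.Agent.Y736.RN
open Pool.Agent.R240.Loc Pool.Agent.R240.Slim Pool.Agent.R240.Res
open Pool.Agent.R449.MB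

variable {d : ℕ} {ψ : ℂ → ℂ}

/-- The conditions with exponents less than `σ`. -/
structure Ord (d : ℕ) (ψ : ℂ → ℂ) (σ : ℝ) (c : ℂ) : Prop where
  few : ∀ κ : ℝ, 0 < κ → κ < σ → FewAt d κ c
  mom : ∀ κ : ℝ, 0 < κ → κ < σ → MomAt d κ c
  slim : ∀ κ : ℝ, 0 < κ → κ < σ → ∀ᶠ r : ℝ in 𝓝[>] 0, (volume (Ang ψ c r)).toReal < r ^ κ ∧
      sSup {x | ∃ w : ℂ, 1 < ‖w‖ ∧ ‖ψ w - c‖ ≤ r ∧ Real.log ‖w‖ = x} < r ^ κ
  far : ∀ X : ℝ, Real.log d / σ < X → Far d X c
  der : ∀ X : ℝ, Real.log d / σ < X → ∀ᶠ n : ℕ in atTop, ‖deriv (P d n) c‖ < Real.exp (X * n)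

/-- Good parameters of order `s`. -/
def GoodL (d : ℕ) (ψ : ℂ → ℂ) (s : ℝ) (c : ℂ) : Prop :=
  ∀ q : ℕ, 1 ≤ q → (q = 1 ∨ RenC d c q) → Ord d ψ (s * q) c

/-- The conditions for all exponents less than `σ` from those for the rational ones. -/
theorem ord_of (hd : 2 ≤ d) (hψ : IsExteriorMap (multibrotSet d) ψ) {c : ℂ}
    (hc : c ∈ multibrotSet d) {σ : ℝ} (hσ : 0 < σ)
    (h1 : ∀ κ : ℚ, 0 < (κ : ℝ) → (κ : ℝ) < σ → FewAt d κ c ∧ MomAt d κ c)
    (h2 : ∀ κ : ℚ, 0 < (κ : ℝ) → (κ : ℝ) < σ → ¬ Big ψ κ c)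
    (h3 : ∀ X : ℚ, Real.log d / σ < (X : ℝ) → ¬ Near d X c) : Ord d ψ σ c := by
  have hdR : (1 : ℝ) < d := by exact_mod_cast (by omega : 1 < d)
  have hlogd : 0 < Real.log d := Real.log_pos hdR
  have hbig : ∀ κ : ℝ, 0 < κ → κ < σ → ¬ Big ψ κ c := by
    intro κ hκ0 hκ hB
    obtain ⟨q, hq1, hq2⟩ := exists_rat_btwn hκ
    exact h2 q (hκ0.trans hq1) hq2 (hB.mono hq1.le)
  refine ⟨?_, ?_, ?_, ?_, ?_⟩
  · intro κ hκ0 hκ
    obtain ⟨q, hq1, hq2⟩ := exists_rat_btwn hκ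
    exact (h1 q (hκ0.trans hq1) hq2).1.mono hq1.le
  · intro κ hκ0 hκ
    obtain ⟨q, hq1, hq2⟩ := exists_rat_btwn hκ
    have h4 := h1 q (hκ0.trans hq1) hq2
    exact mom_of hd h4.2.1 hκ0 hq1 h4.1
  · intro κ hκ0 hκ
    apply Filter.Eventually.and
    · by_contra h4
      rw [not_eventually] at h4
      exact hbig κ hκ0 hκ (big_of_vol hd hψ hc hκ0 (h4.mono fun r hr => not_lt.1 hr))
    · by_contra h4
      rw [not_eventually] at h4
      exact hbig κ hκ0 hκ (big_of_green (h4.mono fun r hr => not_lt.1 hr))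
  · intro X hX
    have hX0 : 0 < X := lt_trans (by positivity) hX
    apply far_of_not_near hd hc hX0.le
    intro hN
    obtain ⟨q, hq1, hq2⟩ := exists_rat_btwn hX
    exact h3 q hq1 (hN.mono hq2.le)
  · intro X hX
    have hX0 : 0 < X := lt_trans (by positivity) hX
    by_contra h4
    rw [not_eventually] at h4
    have h5 : Real.log d / X < σ := by
      rw [div_lt_iff₀ hX0]
      rw [div_lt_iff₀ hσ] at hX
      linarith
    obtain ⟨κ, hκ1, hκ2⟩ := exists_between h5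
    have hκ0 : 0 < κ := lt_trans (by positivity) hκ1
    rw [div_lt_iff₀ hX0] at hκ1
    exact hbig κ hκ0 hκ2 (big_of_deriv hd hψ hc hκ0 hκ1 (h4.mono fun n hn => not_lt.1 hn))

theorem null_dim {A : Set ℂ} {s : ℝ} (hs : 0 ≤ s) (h : dimH A < ENNReal.ofReal s) :
    μH[s] A = 0 := by
  have h1 := hausdorffMeasure_of_dimH_lt (d := s.toNNReal) (s := A) h
  rwa [Real.coe_toNNReal s hs] at h1

theorem dim_fm (hd : 2 ≤ d) {q : ℕ} (hq : 1 ≤ q) {κ : ℝ} (hκ : 0 < κ) :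
    dimH {c | RenC d c q ∧ ¬ (FewAt d κ c ∧ MomAt d κ c)} ≤ ENNReal.ofReal (κ / q) := by
  have h3 : {c | RenC d c q ∧ ¬ (FewAt d κ c ∧ MomAt d κ c)} ⊆
      {c | RenC d c q ∧ ¬ FewAt d κ c} ∪ {c | RenC d c q ∧ ¬ MomAt d κ c} := by
    rintro c ⟨h4, h5⟩
    by_cases h6 : FewAt d κ c
    · exact Or.inr ⟨h4, fun h7 => h5 ⟨h6, h7⟩⟩
    · exact Or.inl ⟨h4, h6⟩
  refine (dimH_mono h3).trans ?_
  rw [dimH_union]
  exact max_le (dim_few hd hq hκ) (dim_mom hd hq hκ)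

/-- **Almost all parameters are good of order `s`, for the `s`-dimensional Hausdorff measure.** -/
theorem ae_good (hd : 2 ≤ d) (hψ : IsExteriorMap (multibrotSet d) ψ) {s : ℝ} (hs : 0 < s) :
    ∀ᵐ c ∂(μH[s] : Measure ℂ), c ∈ multibrotSet d → GoodL d ψ s c := by
  have hdR : (1 : ℝ) < d := by exact_mod_cast (by omega : 1 < d)
  have hlogd : 0 < Real.log d := Real.log_pos hdR
  have h1 : ∀ᵐ c ∂(μH[s] : Measure ℂ), ∀ (q : ℕ) (κ : ℚ), 1 ≤ q → 0 < (κ : ℝ) → (κ : ℝ) < s * q →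
      ¬ (RenC d c q ∧ ¬ (FewAt d κ c ∧ MomAt d κ c)) ∧ ¬ (Ren d c q ∧ Big ψ κ c) := by
    rw [ae_all_iff]; intro q
    rw [ae_all_iff]; intro κ
    by_cases hq : 1 ≤ q
    · by_cases hκ0 : 0 < (κ : ℝ)
      · by_cases hκ : (κ : ℝ) < s * q
        · have hqR : (0 : ℝ) < q := by exact_mod_cast hq
          have hlt : ENNReal.ofReal (κ / q) < ENNReal.ofReal s := by
            rw [ENNReal.ofReal_lt_ofReal_iff hs, div_lt_iff₀ hqR]
            exact hκ
          have h4 : ∀ᵐ c ∂(μH[s] : Measure ℂ),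
              c ∉ {c | RenC d c q ∧ ¬ (FewAt d κ c ∧ MomAt d κ c)} :=
            measure_eq_zero_iff_ae_notMem.1 (null_dim hs.le ((dim_fm hd hq hκ0).trans_lt hlt))
          have h5 : ∀ᵐ c ∂(μH[s] : Measure ℂ), c ∉ {c | Ren d c q ∧ Big ψ κ c} :=
            measure_eq_zero_iff_ae_notMem.1 (null_dim hs.le ((dim_big hd hq hψ hκ0).trans_lt hlt))
          filter_upwards [h4, h5] with c h6 h7 _ _ _
          exact ⟨h6, h7⟩
        · exact ae_of_all _ fun c _ _ h => absurd h hκ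
      · exact ae_of_all _ fun c _ h => absurd h hκ0
    · exact ae_of_all _ fun c h => absurd h hq
  have h2 : ∀ᵐ c ∂(μH[s] : Measure ℂ), ∀ (q : ℕ) (X : ℚ), 1 ≤ q → Real.log d / (s * q) < (X : ℝ) →
      ¬ (RenC d c q ∧ Near d X c) := by
    rw [ae_all_iff]; intro q
    rw [ae_all_iff]; intro X
    by_cases hq : 1 ≤ q
    · by_cases hX : Real.log d / (s * q) < (X : ℝ)
      · have hqR : (0 : ℝ) < q := by exact_mod_cast hq
        have hX0 : (0 : ℝ) < X := lt_trans (by positivity) hX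
        have hlt : ENNReal.ofReal (Real.log d / (q * X)) < ENNReal.ofReal s := by
          rw [ENNReal.ofReal_lt_ofReal_iff hs, div_lt_iff₀ (by positivity)]
          rw [div_lt_iff₀ (by positivity)] at hX
          linarith
        have h4 : ∀ᵐ c ∂(μH[s] : Measure ℂ), c ∉ {c | RenC d c q ∧ Near d X c} :=
          measure_eq_zero_iff_ae_notMem.1 (null_dim hs.le ((dim_near' hd hq hX0).trans_lt hlt))
        filter_upwards [h4] with c h6 _ _
        exact h6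
      · exact ae_of_all _ fun c _ h => absurd h hX
    · exact ae_of_all _ fun c h => absurd h hq
  filter_upwards [h1, h2] with c h3 h4 hc q hq hr
  have hqR : (0 : ℝ) < q := by exact_mod_cast hq
  have hr' : RenC d c q := by
    rcases hr with rfl | hr
    · exact renC_one hd hc
    · exact hr
  refine ord_of hd hψ hc (by positivity) (fun κ hκ0 hκ => ?_) (fun κ hκ0 hκ hB => ?_)
    (fun X hX hN => ?_)
  · by_contra hcon
    exact (h3 q κ hq hκ0 hκ).1 ⟨hr', hcon⟩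
  · exact (h3 q κ hq hκ0 hκ).2 ⟨hr'.ren, hB⟩
  · exact h4 q X hq hX ⟨hr', hN⟩

/-- A set which is covered infinitely often. -/
theorem dim_inf_gen {A : ℕ → Set ℂ} {C : ℝ}
    (h : ∀ q : ℕ, 1 ≤ q → dimH (A q) ≤ ENNReal.ofReal (C / q)) :
    dimH {c | {q : ℕ | c ∈ A q}.Infinite} = 0 := by
  apply le_antisymm _ bot_le
  have h1 : ∀ N : ℕ, 1 ≤ N → dimH {c | {q : ℕ | c ∈ A q}.Infinite} ≤ ENNReal.ofReal (|C| / N) := by
    intro N hN
    have hsub : {c | {q : ℕ | c ∈ A q}.Infinite} ⊆ ⋃ k : ℕ, A (N + k) := by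
      intro c hc
      obtain ⟨q, hq, hqN⟩ := Set.Infinite.exists_gt hc N
      rw [mem_iUnion]
      refine ⟨q - N, ?_⟩
      rw [show N + (q - N) = q by omega]
      exact hq
    refine (dimH_mono hsub).trans ?_
    rw [dimH_iUnion]
    refine iSup_le fun k => (h (N + k) (by omega)).trans ?_
    apply ENNReal.ofReal_le_ofReal
    have hNR : (0 : ℝ) < N := by exact_mod_cast hN
    have h2 : C / ((N + k : ℕ) : ℝ) ≤ |C| / ((N + k : ℕ) : ℝ) := by
      gcongr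
      exact le_abs_self C
    refine h2.trans ?_
    gcongr
    linarith [(Nat.cast_nonneg k : (0 : ℝ) ≤ k)]
  have h2 : Tendsto (fun N : ℕ => ENNReal.ofReal (|C| / N)) atTop (𝓝 (ENNReal.ofReal 0)) :=
    ENNReal.tendsto_ofReal (tendsto_const_div_atTop_nhds_zero_nat |C|)
  rw [ENNReal.ofReal_zero] at h2
  exact ge_of_tendsto h2 ((eventually_ge_atTop 1).mono h1)

/-- **Infinitely renormalizable parameters are good of all orders, off a set of dimension zero.** -/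
theorem dim_inf_good (hd : 2 ≤ d) (hψ : IsExteriorMap (multibrotSet d) ψ) :
    dimH {c | {q : ℕ | RenC d c q}.Infinite ∧ ∃ s : ℝ, 0 < s ∧ ¬ GoodL d ψ s c} = 0 := by
  have hdR : (1 : ℝ) < d := by exact_mod_cast (by omega : 1 < d)
  have hlogd : 0 < Real.log d := Real.log_pos hdR
  set E : ℚ → Set ℂ := fun κ => {c | 0 < (κ : ℝ) ∧
    ({q : ℕ | c ∈ {c | RenC d c q ∧ ¬ (FewAt d κ c ∧ MomAt d κ c)}}.Infinite ∨
      {q : ℕ | c ∈ {c | Ren d c q ∧ Big ψ κ c}}.Infinite ∨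
      {q : ℕ | c ∈ {c | RenC d c q ∧ Near d κ c}}.Infinite)} with hE
  have hE0 : ∀ κ : ℚ, dimH (E κ) = 0 := by
    intro κ
    by_cases hκ : 0 < (κ : ℝ)
    · have hsub : E κ ⊆ {c | {q : ℕ | c ∈ {c | RenC d c q ∧ ¬ (FewAt d κ c ∧ MomAt d κ c)}}.Infinite} ∪
          ({c | {q : ℕ | c ∈ {c | Ren d c q ∧ Big ψ κ c}}.Infinite} ∪
          {c | {q : ℕ | c ∈ {c | RenC d c q ∧ Near d κ c}}.Infinite}) := by
        rintro c ⟨-, h | h | h⟩
        · exact Or.inl h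
        · exact Or.inr (Or.inl h)
        · exact Or.inr (Or.inr h)
      apply le_antisymm _ bot_le
      refine (dimH_mono hsub).trans ?_
      rw [dimH_union, dimH_union, dim_inf_gen (fun q hq => dim_fm hd hq hκ),
        dim_inf_gen (C := κ) (fun q hq => dim_big hd hq hψ hκ),
        dim_inf_gen (C := Real.log d / κ) (fun q hq => (dim_near' hd hq hκ).trans (le_of_eq (by
          rw [div_div, mul_comm])))]
      simp
    · have : E κ = ∅ := by
        rw [hE]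
        ext c
        simp only [mem_ofPred_eq, mem_empty_iff_false, iff_false, not_and]
        intro h
        exact absurd h hκ
      rw [this, dimH_empty]
  have hsub : {c | {q : ℕ | RenC d c q}.Infinite ∧ ∃ s : ℝ, 0 < s ∧ ¬ GoodL d ψ s c} ⊆
      ⋃ κ : ℚ, E κ := by
    rintro c ⟨hinf, s, hs, hng⟩
    by_contra hcon
    rw [mem_iUnion] at hcon
    push Not at hcon
    apply hng
    obtain ⟨q₀, hq₀, hq₀'⟩ := Set.Infinite.exists_gt hinf 0
    have hcM : c ∈ multibrotSet d := ren_mem hq₀' (RenC.ren hq₀)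
    have key : ∀ κ : ℚ, 0 < (κ : ℝ) → (FewAt d κ c ∧ MomAt d κ c) ∧ ¬ Big ψ κ c ∧ ¬ Near d κ c := by
      intro κ hκ
      have h1 := hcon κ
      rw [hE] at h1
      simp only [mem_ofPred_eq, not_and, not_or] at h1
      obtain ⟨h2, h3, h4⟩ := h1 hκ
      refine ⟨?_, ?_, ?_⟩
      · by_contra h5
        exact h2 (hinf.mono fun q hq => ⟨hq, fun h6 h7 => h5 ⟨h6, h7⟩⟩)
      · intro h5
        exact h3 (hinf.mono fun q hq => ⟨RenC.ren hq, h5⟩)
      · intro h5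
        exact h4 (hinf.mono fun q hq => ⟨hq, h5⟩)
    intro q hq _
    have hqR : (0 : ℝ) < q := by exact_mod_cast hq
    refine ord_of hd hψ hcM (by positivity) (fun κ hκ0 _ => (key κ hκ0).1)
      (fun κ hκ0 _ => (key κ hκ0).2.1) (fun X hX => (key X (lt_trans (by positivity) hX)).2.2)
  apply le_antisymm _ bot_le
  refine (dimH_mono hsub).trans ?_
  rw [dimH_iUnion]
  exact iSup_le fun κ => (hE0 κ).le

/-- The radial projections of the parameters which are not good. -/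
theorem circles_good (hd : 2 ≤ d) (hψ : IsExteriorMap (multibrotSet d) ψ) (p : ℂ) :
    ∀ᵐ s : ℝ, ∀ c ∈ multibrotSet d, dist c p = s → GoodL d ψ 1 c := by
  have h1 := ae_good hd hψ one_pos
  have h2 : μH[1] {c | ¬ (c ∈ multibrotSet d → GoodL d ψ 1 c)} = 0 := h1
  have h3 : LipschitzWith 1 (fun z : ℂ => dist z p) := LipschitzWith.dist_left p
  have h4 := h3.hausdorffMeasure_image_le (d := 1) zero_le_one
    {c | ¬ (c ∈ multibrotSet d → GoodL d ψ 1 c)}
  rw [h2, mul_zero, nonpos_iff_eq_zero, hausdorffMeasure_real] at h4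
  have h5 : ∀ᵐ s : ℝ, s ∉ (fun z => dist z p) '' {c | ¬ (c ∈ multibrotSet d → GoodL d ψ 1 c)} :=
    measure_eq_zero_iff_ae_notMem.1 h4
  filter_upwards [h5] with s hs c hc hcs
  by_contra hcon
  exact hs ⟨c, fun h => hcon (h hc), hcs⟩

end Pool.Agent.N228.DQ
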