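import Mathlib
import Pool.Prelude.Def_F_c31e40fa
import Pool.Agent.TH363.QI.Pre
import Pool.Agent.TH363.CD.Uniq
import Pool.Agent.Helper114.MontelSol
import Pool.Agent.H713R2.AR.HB

/-! # Components of the interior of the Multibrot sets: attracting cycles persist -/

set_option autoImplicit false
open Set Filter Topology Metric Finset

namespace Pool.Agent.N228.DQ

open Pool.Agent.W746.LD Pool.Agent.TH363.QI
open N62a1eb23

variable {n : ℕ}

/-- The parameters with an attracting cycle. -/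
def hyp (n : ℕ) : Set ℂ := {c | ∃ m z, IsAttractingCycle (fun z => z ^ n + c) m z}

theorem att_iff {m : ℕ} {t z : ℂ} :
    IsAttractingCycle (fun z => z ^ n + t) m z ↔ 0 < m ∧ orb n t z m = z ∧ ‖P n t z m‖ < 1 := by
  have h1 : deriv (fun z => z ^ n + t)^[m] z = P n t z m := (hasDerivAt_orb z m).deriv
  constructor
  · rintro ⟨h2, h3, -, h4⟩
    refine ⟨h2, h3, ?_⟩
    rwa [h1] at h4
  · rintro ⟨h2, h3, h4⟩
    refine ⟨h2, h3, (hasDerivAt_orb z m).differentiableAt, ?_⟩
    rwa [h1]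

theorem prod_shift {g : ℕ → ℂ} {m : ℕ} (hm : 0 < m) (h : g m = g 0) :
    ∏ i ∈ range m, g (i + 1) = ∏ i ∈ range m, g i := by
  obtain ⟨k, rfl⟩ : ∃ k, m = k + 1 := ⟨m - 1, by omega⟩
  rw [prod_range_succ, prod_range_succ' g k, h]

/-- The multiplier is the same along the cycle. -/
theorem mult_shift {t z : ℂ} {m : ℕ} (hm : 0 < m) (h : orb n t z m = z) (l : ℕ) :
    orb n t (orb n t z l) m = orb n t z l ∧ P n t (orb n t z l) m = P n t z m := by
  induction l with
  | zero => exact ⟨h, rfl⟩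
  | succ l ih =>
    obtain ⟨h1, h2⟩ := ih
    have h3 : orb n t z (l + 1) = orb n t (orb n t z l) 1 := orb_add z l 1
    set w := orb n t z l with hw
    rw [h3]
    constructor
    · rw [← orb_add, add_comm, orb_add, h1]
    · rw [← h2]
      have h4 : ∀ i, orb n t (orb n t w 1) i = orb n t w (i + 1) := by
        intro i
        rw [← orb_add, add_comm]
      have h5 : P n t (orb n t w 1) m =
          ∏ i ∈ range m, ((n : ℂ) * (orb n t w (i + 1)) ^ (n - 1)) := by
        unfold P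
        exact prod_congr rfl fun i _ => by rw [h4 i]
      rw [h5]
      exact prod_shift (g := fun i => (n : ℂ) * (orb n t w i) ^ (n - 1)) hm (by
        simp only [h1, orb_zero])

/-- Local contraction near an attracting periodic point, uniformly in the parameter. -/
theorem local_contr {p : ℕ} {t₀ z₀ : ℂ} (h : ‖P n t₀ z₀ p‖ < 1) :
    ∃ ε > 0, ∃ θ : ℝ, 0 ≤ θ ∧ θ < 1 ∧ ∀ t ∈ ball t₀ ε, ∀ z ∈ ball z₀ ε, ‖P n t z p‖ ≤ θ ∧
      ∀ w ∈ ball z₀ ε, ‖orb n t z p - orb n t w p‖ ≤ θ * ‖z - w‖ := by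
  set L := P n t₀ z₀ p with hL
  set η : ℝ := (1 - ‖L‖) / 2 with hη
  have hη0 : 0 < η := by rw [hη]; linarith
  have hc := (continuous_P2 n p).tendsto (t₀, z₀)
  rw [Metric.tendsto_nhds_nhds] at hc
  obtain ⟨ε, hε, h1⟩ := hc η hη0
  refine ⟨ε, hε, (1 + ‖L‖) / 2, by positivity, by linarith, ?_⟩
  intro t ht z hz
  have hb : ∀ x ∈ ball z₀ ε, ‖P n t x p‖ ≤ (1 + ‖L‖) / 2 := by
    intro x hx
    have h2 : dist (t, x) (t₀, z₀) < ε := by
      rw [Prod.dist_eq, max_lt_iff]
      exact ⟨ht, hx⟩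
    have h3 := h1 h2
    rw [dist_eq_norm] at h3
    have h4 : ‖P n t x p‖ ≤ ‖P n t x p - L‖ + ‖L‖ := by
      have := norm_add_le (P n t x p - L) L
      rwa [sub_add_cancel] at this
    have h5 : ‖P n t x p - L‖ < η := h3
    rw [hη] at h5
    linarith
  refine ⟨hb z hz, fun w hw => ?_⟩
  have hd : ∀ x ∈ ball z₀ ε, HasDerivWithinAt (fun x => orb n t x p) (P n t x p)
      (ball z₀ ε) x := fun x _ => (hasDerivAt_orb (n := n) (c := t) x p).hasDerivWithinAt
  exact (convex_ball z₀ ε).norm_image_sub_le_of_norm_hasDerivWithin_le hd hb hw hz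

theorem cont_par (p : ℕ) (z : ℂ) : Continuous fun t : ℂ => orb n t z p :=
  (continuous_orb2 n p).comp (by fun_prop : Continuous fun t : ℂ => (t, z))

theorem cont_pt (p : ℕ) (t : ℂ) : Continuous fun z : ℂ => orb n t z p :=
  (continuous_orb2 n p).comp (by fun_prop : Continuous fun z : ℂ => (t, z))

/-- Attracting cycles persist, and attract the critical orbit. -/
theorem att_nhds (hn : 2 ≤ n) {c z : ℂ} {m : ℕ}
    (h : IsAttractingCycle (fun z => z ^ n + c) m z) :
    ∃ ε > 0, ∀ t ∈ ball c ε, ∃ y, IsAttractingCycle (fun z => z ^ n + t) m y ∧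
      Tendsto (fun k : ℕ => orb n t 0 (m * k)) atTop (𝓝 y) := by
  obtain ⟨l, hl⟩ := Pool.Agent.TH363.CD.crit_conv hn h
  obtain ⟨hm, hper, hmul⟩ := att_iff.1 h
  set w := orb n c z l with hw
  have hlim : Tendsto (fun k : ℕ => orb n c 0 (m * k)) atTop (𝓝 w) := hl
  obtain ⟨hw1, hw2⟩ := mult_shift hm hper l
  rw [← hw] at hw1 hw2
  rw [← hw2] at hmul
  obtain ⟨ε₁, hε₁, θ, hθ0, hθ1, hcon⟩ := local_contr hmul
  set ρ := ε₁ / 2 with hρ
  have hρ0 : 0 < ρ := by rw [hρ]; linarith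
  obtain ⟨k₀, hk₀⟩ : ∃ k₀ : ℕ, dist (orb n c 0 (m * k₀)) w < ρ :=
    ((Metric.tendsto_nhds.1 hlim ρ hρ0)).exists
  have e1 : ∀ᶠ t in 𝓝 c, dist (orb n t 0 (m * k₀)) w < ρ :=
    ((cont_par (n := n) (m * k₀) 0).dist continuous_const).continuousAt.eventually_lt
      continuousAt_const hk₀
  have e2 : ∀ᶠ t in 𝓝 c, dist (orb n t w m) w < (1 - θ) * ρ := by
    refine ((cont_par (n := n) m w).dist continuous_const).continuousAt.eventually_lt
      continuousAt_const ?_
    rw [hw1, dist_self]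
    have : 0 < 1 - θ := by linarith
    positivity
  obtain ⟨ε, hε, he⟩ := Metric.eventually_nhds_iff_ball.1
    ((e1.and e2).and (ball_mem_nhds c hε₁))
  refine ⟨ε, hε, fun t ht => ?_⟩
  obtain ⟨⟨h1, h2⟩, h3⟩ := he t ht
  have hball : closedBall w ρ ⊆ ball w ε₁ := closedBall_subset_ball (by rw [hρ]; linarith)
  have hstep : ∀ x ∈ closedBall w ρ, orb n t x m ∈ closedBall w ρ := by
    intro x hx
    have h4 := (hcon t h3 x (hball hx)).2 w (mem_ball_self hε₁)
    rw [mem_closedBall] at hx ⊢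
    have h5 := dist_triangle (orb n t x m) (orb n t w m) w
    have h7 : dist (orb n t x m) (orb n t w m) = ‖orb n t x m - orb n t w m‖ := dist_eq_norm _ _
    rw [dist_eq_norm x w] at hx
    have h6 : θ * ‖x - w‖ ≤ θ * ρ := by gcongr
    linarith
  have hmem : ∀ j : ℕ, orb n t 0 (m * (k₀ + j)) ∈ closedBall w ρ := by
    intro j
    induction j with
    | zero => exact h1.le
    | succ j ih =>
      have : m * (k₀ + (j + 1)) = m * (k₀ + j) + m := by ring
      rw [this, orb_add]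
      exact hstep _ ih
  set u : ℕ → ℂ := fun j => orb n t 0 (m * (k₀ + j)) with hu
  have hus : ∀ j, u (j + 1) = orb n t (u j) m := by
    intro j
    show orb n t 0 (m * (k₀ + (j + 1))) = _
    have : m * (k₀ + (j + 1)) = m * (k₀ + j) + m := by ring
    rw [this, orb_add]
  have hgeo : ∀ j, dist (u j) (u (j + 1)) ≤ (2 * ρ) * θ ^ j := by
    intro j
    induction j with
    | zero =>
      rw [pow_zero, mul_one]
      have h4 := dist_triangle_right (u 0) (u (0 + 1)) w
      have h5 : dist (u 0) w ≤ ρ := hmem 0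
      have h6 : dist (u (0 + 1)) w ≤ ρ := hmem (0 + 1)
      linarith
    | succ j ih =>
      rw [hus j, hus (j + 1), dist_eq_norm]
      have h4 := (hcon t h3 (u j) (hball (hmem j))).2 (u (j + 1)) (hball (hmem (j + 1)))
      rw [dist_eq_norm] at ih
      calc ‖orb n t (u j) m - orb n t (u (j + 1)) m‖ ≤ θ * ‖u j - u (j + 1)‖ := h4
        _ ≤ θ * (2 * ρ * θ ^ j) := by gcongr
        _ = 2 * ρ * θ ^ (j + 1) := by ring
  obtain ⟨y, hy⟩ := cauchySeq_tendsto_of_complete (cauchySeq_of_le_geometric θ _ hθ1 hgeo)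
  have hymem : y ∈ closedBall w ρ :=
    isClosed_closedBall.mem_of_tendsto hy (Eventually.of_forall hmem)
  have hfix : orb n t y m = y := by
    have h4 : Tendsto (fun j => orb n t (u j) m) atTop (𝓝 (orb n t y m)) :=
      ((cont_pt (n := n) m t).tendsto y).comp hy
    have h5 : Tendsto (fun j => u (j + 1)) atTop (𝓝 y) := hy.comp (tendsto_add_atTop_nat 1)
    refine tendsto_nhds_unique h4 (h5.congr fun j => hus j)
  refine ⟨y, att_iff.2 ⟨hm, hfix, lt_of_le_of_lt (hcon t h3 y (hball hymem)).1 hθ1⟩, ?_⟩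
  have h6 : Tendsto (fun j => (fun k : ℕ => orb n t 0 (m * k)) (j + k₀)) atTop (𝓝 y) := by
    refine hy.congr fun j => ?_
    show orb n t 0 (m * (k₀ + j)) = orb n t 0 (m * (j + k₀))
    rw [add_comm]
  exact (tendsto_add_atTop_iff_nat k₀).1 h6

theorem isOpen_hyp (hn : 2 ≤ n) : IsOpen (hyp n) := by
  rw [Metric.isOpen_iff]
  rintro c ⟨m, z, h⟩
  obtain ⟨ε, hε, h1⟩ := att_nhds hn h
  refine ⟨ε, hε, fun t ht => ?_⟩
  obtain ⟨y, hy, -⟩ := h1 t ht
  exact ⟨m, y, hy⟩

theorem orb_zero_eq (hn : 2 ≤ n) (t : ℂ) (k : ℕ) : orb n t 0 k = Pool.Agent.H712R2.P n k t := by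
  cases k with
  | zero => rw [orb_zero, Pool.Agent.H712R2.P_zero]
  | succ k =>
    rw [P_eq_orb hn, add_comm, orb_add, orb_one, zero_pow (by omega), zero_add]

end Pool.Agent.N228.DQ
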